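import Pool.Agent.helper32.TRG.Spec
set_option autoImplicit false
open Finset
namespace Pool.Agent.TRI
open Pool.Agent.EXC

theorem W4P_fin : ∀ (k : Fin 24) (j : Fin 6), (j = 2 ∨ j = 3 ∨ j = 4) → ip C4 th4 (lt4 k) = 0 →
    (∀ i, (2 : ℤ) ∣ lt4 k i - bt4 j i) → lt4 k = bt4 j ∨ lt4 k = -bt4 j := by decide +kernel

theorem W4P_rf : ∀ j : Fin 6, (j = 2 ∨ j = 3 ∨ j = 4) → ∃ i, rf C4 i th4 = th4 ∧ rf C4 i (-bt4 j) = bt4 j := by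
  decide +kernel

theorem W4P_even (j : Fin 6) (hj : j = 2 ∨ j = 3 ∨ j = 4) (w : Fin 4 → ℤ)
    (hw : ∀ i, (2 : ℤ) ∣ w i - (th4 i + bt4 j i)) (i : Fin 4) : (2 : ℤ) ∣ ip C4 w (sr i) := by
  have h0 := hw 0
  have h1 := hw 1
  have h2 := hw 2
  have h3 := hw 3
  rw [C4_ip]
  rcases hj with rfl | rfl | rfl <;> fin_cases i <;>
    simp [th4, bt4, sr] at h0 h1 h2 h3 ⊢ <;> omega

theorem W4P_symm (p q : (Fin 4 → ℤ) × (Fin 4 → ℤ)) (h : WP C4 p q) : WP C4 q p := by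
  induction h with
  | refl => exact Relation.ReflTransGen.refl
  | @tail b c _ h2 ih =>
    obtain ⟨i, rfl⟩ := h2
    refine Relation.ReflTransGen.head ⟨i, ?_⟩ ih
    rw [(f_RFL 4 C4 i b.1 b.1).2.1, (f_RFL 4 C4 i b.2 b.2).2.1]

theorem W4P_inv (j : Fin 6) (hj : j = 2 ∨ j = 3 ∨ j = 4) (p q : (Fin 4 → ℤ) × (Fin 4 → ℤ)) (h : WP C4 p q)
    (hp : ip C4 p.1 p.2 = 0 ∧ ∀ i, (2 : ℤ) ∣ p.1 i + p.2 i - (th4 i + bt4 j i)) :
    ip C4 q.1 q.2 = 0 ∧ ∀ i, (2 : ℤ) ∣ q.1 i + q.2 i - (th4 i + bt4 j i) := by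
  induction h with
  | refl => exact hp
  | @tail b c _ h2 ih =>
    obtain ⟨i, rfl⟩ := h2
    refine ⟨by rw [(f_RFL 4 C4 i _ _).1]; exact ih.1, fun k => ?_⟩
    have h3 := W4P_even j hj (b.1 + b.2) ih.2 i
    have h4 := ih.2 k
    have h5 : (rf C4 i b.1) k + (rf C4 i b.2) k - (th4 k + bt4 j k) =
        (b.1 k + b.2 k - (th4 k + bt4 j k)) - ip C4 (b.1 + b.2) (sr i) * (sr i : Fin 4 → ℤ) k := by
      rw [ip_add_left]
      simp only [rf, Pi.sub_apply, Pi.smul_apply, smul_eq_mul]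
      ring
    rw [h5]
    exact dvd_sub h4 (Dvd.dvd.mul_right h3 _)

theorem W4P (hRL4 : RL4_stmt) : W4P_stmt := by
  intro j u v hj hK
  obtain ⟨hu, hv, huv, hd⟩ := hK
  refine W4P_symm _ _ ?_
  obtain ⟨β, hβ, hW⟩ := g4_NBR u th4 v hu th4_root hv
  obtain ⟨h1, h2⟩ := W4P_inv j hj _ _ hW ⟨huv, hd⟩
  obtain ⟨k, rfl⟩ := hRL4 β hβ
  have h3 : ∀ i, (2 : ℤ) ∣ lt4 k i - bt4 j i := by
    intro i
    have h4 := h2 i
    have h5 : (th4, lt4 k).1 i + (th4, lt4 k).2 i - (th4 i + bt4 j i) = lt4 k i - bt4 j i := by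
      change th4 i + lt4 k i - (th4 i + bt4 j i) = _
      ring
    rwa [h5] at h4
  rcases W4P_fin k j hj h1 h3 with h6 | h6
  · rw [h6] at hW
    exact hW
  · rw [h6] at hW
    obtain ⟨i, h7, h8⟩ := W4P_rf j hj
    refine hW.tail ⟨i, ?_⟩
    change (th4, bt4 j) = (rf C4 i th4, rf C4 i (-bt4 j))
    rw [h7, h8]

end Pool.Agent.TRI
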